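import Mathlib

/-!
# Function space topologies and their Z-versions
-/

set_option autoImplicit false
set_option linter.style.haveILetI false

namespace Pool.Agent.Results.MP_43be50_gt.AllDiffer

open Set TopologicalSpace

section Definitions

variable (Y Z : Type) [TopologicalSpace Y] [TopologicalSpace Z]

/-- The family `O_Z(Y)`. -/
def OZ : Set (Opens Y) := {V | ∃ (f : C(Y, Z)) (U : Opens Z), V = Opens.comap f U}

/-- The topology on `Y` with subbasis `O_Z(Y)`. -/
abbrev tauZ : TopologicalSpace Y := generateFrom {V | ∃ W ∈ OZ Y Z, V = (W : Set Y)}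

/-- The compact-open topology `t_co`. -/
abbrev tco : TopologicalSpace C(Y, Z) :=
  generateFrom {S | ∃ (K : Set Y) (U : Opens Z), IsCompact K ∧
    S = {f : C(Y, Z) | ∀ y ∈ K, f y ∈ U}}

/-- The topology `t_co^Z`. -/
abbrev tcoZ : TopologicalSpace C(Y, Z) :=
  generateFrom {S | ∃ (K : Set Y) (U : Opens Z), @IsCompact Y (tauZ Y Z) K ∧
    S = {f : C(Y, Z) | ∀ y ∈ K, f y ∈ U}}

/-- Openness in the Scott topology on the open sets of `Y`. -/
def ScottOpen (H : Set (Opens Y)) : Prop :=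
  (∀ W ∈ H, ∀ V, W ≤ V → V ∈ H) ∧
    ∀ F : Set (Opens Y), sSup F ∈ H → ∃ F' ⊆ F, F'.Finite ∧ sSup F' ∈ H

/-- Openness in the strong Scott topology on the open sets of `Y`. -/
def StrongScottOpen (H : Set (Opens Y)) : Prop :=
  (∀ W ∈ H, ∀ V, W ≤ V → V ∈ H) ∧
    ∀ F : Set (Opens Y), sSup F = ⊤ → ∃ F' ⊆ F, F'.Finite ∧ sSup F' ∈ H

/-- Openness in `τ_1^Z`. -/
def Tau1Open (H : Set (Opens Y)) : Prop :=
  (∀ W ∈ H ∩ OZ Y Z, ∀ V, W ≤ V → V ∈ H) ∧
    ∀ F ⊆ OZ Y Z, sSup F ∈ H → ∃ F' ⊆ F, F'.Finite ∧ sSup F' ∈ H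

/-- Openness in `τ_{1,s}^Z`. -/
def Tau1sOpen (H : Set (Opens Y)) : Prop :=
  (∀ W ∈ H ∩ OZ Y Z, ∀ V, W ≤ V → V ∈ H) ∧
    ∀ F ⊆ OZ Y Z, sSup F = ⊤ → ∃ F' ⊆ F, F'.Finite ∧ sSup F' ∈ H

/-- The topology on `C(Y, Z)` with subbasis all `(H, U)`, where `H` satisfies `P`. -/
abbrev tOf (P : Set (Opens Y) → Prop) : TopologicalSpace C(Y, Z) :=
  generateFrom {S | ∃ (H : Set (Opens Y)) (U : Opens Z), P H ∧ S = {f | Opens.comap f U ∈ H}}

end Definitions

/-- The Isbell topology is coarser than the strong Isbell topology. -/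
theorem tsIs_le_tIs (Y Z : Type) [TopologicalSpace Y] [TopologicalSpace Z] :
    tOf Y Z (StrongScottOpen Y) ≤ tOf Y Z (ScottOpen Y) := by
  refine le_generateFrom ?_
  rintro S ⟨H, U, hH, rfl⟩
  rcases H.eq_empty_or_nonempty with h | ⟨W, hW⟩
  · subst h
    have : {f : C(Y, Z) | Opens.comap f U ∈ (∅ : Set (Opens Y))} = ∅ := by
      ext f
      simp
    rw [this]
    exact @isOpen_empty _ (tOf Y Z (StrongScottOpen Y))
  · refine isOpen_generateFrom_of_mem ⟨H, U, ⟨hH.1, fun F hF => hH.2 F ?_⟩, rfl⟩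
    rw [hF]
    exact hH.1 W hW _ le_top

/-- The compact-open topology is coarser than the Isbell topology. -/
theorem tIs_le_tco (Y Z : Type) [TopologicalSpace Y] [TopologicalSpace Z] :
    tOf Y Z (ScottOpen Y) ≤ tco Y Z := by
  refine le_generateFrom ?_
  rintro S ⟨K, U, hK, rfl⟩
  refine isOpen_generateFrom_of_mem ⟨{V | K ⊆ V}, U, ⟨fun W hW V hV => ?_, fun F hF => ?_⟩, ?_⟩
  · exact Subset.trans hW hV
  · have h1 : K ⊆ ⋃ V ∈ F, (V : Set Y) := by
      have : K ⊆ (sSup F : Opens Y) := hF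
      rwa [Opens.coe_sSup] at this
    obtain ⟨t, ht1, ht2, ht3⟩ := hK.elim_finite_subcover_image (b := F)
      (c := fun V : Opens Y => (V : Set Y)) (fun V _ => V.isOpen) h1
    refine ⟨t, ht1, ht2, ?_⟩
    change K ⊆ (sSup t : Opens Y)
    rwa [Opens.coe_sSup]
  · ext f
    exact Iff.rfl

/-- the ultrafilter -/
noncomputable abbrev UF : Ultrafilter ℕ := Filter.hyperfilter ℕ

/-- The points of the space. -/
inductive Y : Type
  | pt (n : ℕ) : Y
  | lim (A : Set ℕ) (hA : A.Infinite) (hA' : A ∉ UF) : Y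

open Y

instance : TopologicalSpace Y where
  IsOpen V := ∀ A hA hA', lim A hA hA' ∈ V → {n | n ∈ A ∧ pt n ∉ V}.Finite
  isOpen_univ := by
    intro A hA hA' _
    simp
  isOpen_inter := by
    intro s t hs ht A hA hA' h
    refine ((hs A hA hA' h.1).union (ht A hA hA' h.2)).subset ?_
    rintro n ⟨h1, h2⟩
    by_cases h3 : pt n ∈ s
    · exact Or.inr ⟨h1, fun h4 => h2 ⟨h3, h4⟩⟩
    · exact Or.inl ⟨h1, h3⟩
  isOpen_sUnion := by
    rintro S hS A hA hA' ⟨t, ht, h⟩
    refine (hS t ht A hA hA' h).subset ?_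
    rintro n ⟨h1, h2⟩
    exact ⟨h1, fun h3 => h2 ⟨t, ht, h3⟩⟩

theorem isOpen_iff {V : Set Y} : IsOpen V ↔
    ∀ A hA hA', lim A hA hA' ∈ V → {n | n ∈ A ∧ pt n ∉ V}.Finite := Iff.rfl

theorem finite_notMem {A : Set ℕ} (hA : A.Finite) : A ∉ UF :=
  hA.notMem_hyperfilter

theorem union_notMem {A B : Set ℕ} (hA : A ∉ UF) (hB : B ∉ UF) : A ∪ B ∉ UF := by
  rw [Ultrafilter.union_mem_iff]
  exact not_or.2 ⟨hA, hB⟩

/-- tallness -/
theorem tall {S : Set ℕ} (hS : S.Infinite) : ∃ A ⊆ S, A.Infinite ∧ A ∉ UF := by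
  let e := hS.natEmbedding
  let A0 : Set ℕ := range fun n => (e (2 * n)).1
  let A1 : Set ℕ := range fun n => (e (2 * n + 1)).1
  have h0 : A0.Infinite := infinite_range_of_injective fun m n h => by
    have := e.injective (Subtype.ext h)
    omega
  have h1 : A1.Infinite := infinite_range_of_injective fun m n h => by
    have := e.injective (Subtype.ext h)
    omega
  have hd : Disjoint A0 A1 := by
    rw [Set.disjoint_left]
    rintro _ ⟨m, rfl⟩ ⟨n, hn⟩
    have := e.injective (Subtype.ext hn)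
    omega
  by_cases h : A0 ∈ UF
  · refine ⟨A1, ?_, h1, fun h' => ?_⟩
    · rintro _ ⟨n, rfl⟩
      exact (e _).2
    · exact UF.neBot.1 ((Filter.empty_mem_iff_bot).1 (by
        have := Filter.inter_mem h h'
        rwa [hd.inter_eq] at this))
  · refine ⟨A0, ?_, h0, h⟩
    rintro _ ⟨n, rfl⟩
    exact (e _).2

theorem lim_fin (f : C(Y, ℝ)) (A : Set ℕ) (hA : A.Infinite) (hA' : A ∉ UF) {ε : ℝ} (hε : 0 < ε) :
    {n | n ∈ A ∧ ε ≤ |f (pt n) - f (lim A hA hA')|}.Finite := by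
  have h1 : IsOpen {y | |f y - f (lim A hA hA')| < ε} :=
    isOpen_lt (by fun_prop) continuous_const
  have h2 := h1 A hA hA' (by simpa using hε)
  refine h2.subset ?_
  rintro n ⟨h3, h4⟩
  exact ⟨h3, not_lt.2 h4⟩

/-- all special points have the same value -/
theorem same_sub (f : C(Y, ℝ)) {A B : Set ℕ} (hA : A.Infinite) (hA' : A ∉ UF) (hB : B.Infinite)
    (hB' : B ∉ UF) (hAB : A ⊆ B) : f (lim A hA hA') = f (lim B hB hB') := by
  by_contra hne
  have hpos : 0 < |f (lim A hA hA') - f (lim B hB hB')| / 2 := by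
    have := abs_pos.2 (sub_ne_zero.2 hne)
    linarith
  have h1 := lim_fin f A hA hA' hpos
  have h2 := lim_fin f B hB hB' hpos
  have h3 := hA.sdiff (h1.union h2)
  obtain ⟨n, hn1, hn2⟩ := h3.nonempty
  rw [mem_union, not_or] at hn2
  have h4 : |f (pt n) - f (lim A hA hA')| < |f (lim A hA hA') - f (lim B hB hB')| / 2 := by
    by_contra h
    exact hn2.1 ⟨hn1, not_lt.1 h⟩
  have h5 : |f (pt n) - f (lim B hB hB')| < |f (lim A hA hA') - f (lim B hB hB')| / 2 := by
    by_contra h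
    exact hn2.2 ⟨hAB hn1, not_lt.1 h⟩
  have h6 : |f (lim A hA hA') - f (lim B hB hB')| ≤
      |f (pt n) - f (lim A hA hA')| + |f (pt n) - f (lim B hB hB')| := by
    have := abs_sub_le (f (lim A hA hA')) (f (pt n)) (f (lim B hB hB'))
    rwa [abs_sub_comm (f (lim A hA hA')) (f (pt n))] at this
  linarith

theorem same (f : C(Y, ℝ)) {A B : Set ℕ} (hA : A.Infinite) (hA' : A ∉ UF) (hB : B.Infinite)
    (hB' : B ∉ UF) : f (lim A hA hA') = f (lim B hB hB') := by
  have h1 : (A ∪ B).Infinite := hA.mono subset_union_left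
  have h2 := union_notMem hA' hB'
  rw [same_sub f hA hA' h1 h2 subset_union_left, same_sub f hB hB' h1 h2 subset_union_right]

theorem cofin (f : C(Y, ℝ)) {B : Set ℕ} (hB : B.Infinite) (hB' : B ∉ UF) {U : Set ℝ}
    (hU : IsOpen U) (h : f (lim B hB hB') ∈ U) : {n | f (pt n) ∉ U}.Finite := by
  by_contra hinf
  obtain ⟨A, hA1, hA2, hA3⟩ := tall hinf
  have h1 : f (lim A hA2 hA3) ∈ U := by rwa [same f hA2 hA3 hB hB']
  have h2 := (hU.preimage f.continuous) A hA2 hA3 h1
  refine hA2 (h2.subset fun n hn => ⟨hn, hA1 hn⟩)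

theorem exists_lim : ∃ (A : Set ℕ), A.Infinite ∧ A ∉ UF := by
  obtain ⟨A, -, h1, h2⟩ := tall (infinite_univ : (univ : Set ℕ).Infinite)
  exact ⟨A, h1, h2⟩

/-- a set open in the ℝ-topology that contains a special point contains all special points and
almost all isolated points -/
theorem tau_open {V : Set Y} (hV : @IsOpen _ (tauZ Y ℝ) V) {B : Set ℕ} {hB : B.Infinite}
    {hB' : B ∉ UF} (h : lim B hB hB' ∈ V) :
    (∀ A hA hA', lim A hA hA' ∈ V) ∧ {n | pt n ∉ V}.Finite := by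
  induction hV with
  | basic s hs =>
    obtain ⟨W, ⟨f, U, rfl⟩, rfl⟩ := hs
    have h' : f (lim B hB hB') ∈ U := h
    refine ⟨fun A hA hA' => ?_, cofin f hB hB' U.isOpen h'⟩
    change f (lim A hA hA') ∈ U
    rwa [same f hA hA' hB hB']
  | univ => simp
  | inter s t _ _ hs ht =>
    obtain ⟨h1, h2⟩ := hs h.1
    obtain ⟨h3, h4⟩ := ht h.2
    refine ⟨fun A hA hA' => ⟨h1 A hA hA', h3 A hA hA'⟩, (h2.union h4).subset ?_⟩
    intro n hn
    by_cases h5 : pt n ∈ s
    · exact Or.inr fun h6 => hn ⟨h5, h6⟩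
    · exact Or.inl h5
  | sUnion S _ ih =>
    obtain ⟨t, ht, hx⟩ := h
    obtain ⟨h1, h2⟩ := ih t ht hx
    exact ⟨fun A hA hA' => ⟨t, ht, h1 A hA hA'⟩, h2.subset fun n hn h3 => hn ⟨t, ht, h3⟩⟩

theorem tau_compact : @IsCompact Y (tauZ Y ℝ) univ := by
  letI := tauZ Y ℝ
  refine isCompact_of_finite_subcover fun {ι} U hU hcov => ?_
  obtain ⟨B, hB, hB'⟩ := exists_lim
  have hex : ∀ y : Y, ∃ i, y ∈ U i := fun y => mem_iUnion.1 (hcov (mem_univ y))
  choose i hi using hex
  obtain ⟨h1, h2⟩ := tau_open (hU _) (hi (lim B hB hB'))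
  classical
  refine ⟨insert (i (lim B hB hB')) (h2.toFinset.image fun n => i (pt n)), fun y _ => ?_⟩
  rw [mem_iUnion₂]
  rcases y with n | ⟨A, hA, hA'⟩
  · by_cases h : pt n ∈ U (i (lim B hB hB'))
    · exact ⟨_, Finset.mem_insert_self _ _, h⟩
    · refine ⟨i (pt n), Finset.mem_insert_of_mem (Finset.mem_image.2 ⟨n, ?_, rfl⟩), hi _⟩
      rw [Finite.mem_toFinset]
      exact h
  · exact ⟨_, Finset.mem_insert_self _ _, h1 A hA hA'⟩

/-- the open interval -/
def J : Opens ℝ := ⟨Ioo (-1) 1, isOpen_Ioo⟩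

/-- the functions with values in the interval -/
def S0 : Set C(Y, ℝ) := {f | ∀ y, f y ∈ J}

theorem open1 : @IsOpen _ (tcoZ Y ℝ) S0 := by
  refine isOpen_generateFrom_of_mem ⟨univ, J, tau_compact, ?_⟩
  ext f
  constructor
  · intro h y _
    exact h y
  · intro h y
    exact h y (mem_univ y)

theorem elim_image {X L : Type} (t : TopologicalSpace X) {s : Set X} (hs : IsCompact s)
    {b : Set L} {c : L → Set X} (h1 : ∀ i ∈ b, IsOpen (c i)) (h2 : s ⊆ ⋃ i ∈ b, c i) :
    ∃ b' ⊆ b, b'.Finite ∧ s ⊆ ⋃ i ∈ b', c i :=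
  hs.elim_finite_subcover_image h1 h2

/-- covers by sets of `O_Z` have finite subcovers -/
theorem fin_sub (F : Set (Opens Y)) (hF : F ⊆ OZ Y ℝ) (h : sSup F = ⊤) :
    ∃ F' ⊆ F, F'.Finite ∧ sSup F' = ⊤ := by
  have h1 : (univ : Set Y) ⊆ ⋃ V ∈ F, (V : Set Y) := by
    have : ((sSup F : Opens Y) : Set Y) = univ := by rw [h]; rfl
    rw [Opens.coe_sSup] at this
    rw [this]
  obtain ⟨t, ht1, ht2, ht3⟩ := elim_image (tauZ Y ℝ) tau_compact (b := F)
    (c := fun V : Opens Y => (V : Set Y)) (fun V hV =>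
      isOpen_generateFrom_of_mem ⟨V, hF hV, rfl⟩) h1
  refine ⟨t, ht1, ht2, ?_⟩
  apply Opens.ext
  rw [Opens.coe_sSup]
  exact univ_subset_iff.1 ht3

theorem open2 : @IsOpen _ (tOf Y ℝ (Tau1Open Y ℝ)) S0 := by
  refine isOpen_generateFrom_of_mem ⟨{⊤}, J, ⟨?_, ?_⟩, ?_⟩
  · rintro W ⟨rfl, -⟩ V hV
    exact top_le_iff.1 hV
  · intro F hF h
    exact fin_sub F hF h
  · ext f
    constructor
    · intro h
      apply Opens.ext
      exact eq_univ_of_forall h
    · intro h y
      have h1 : y ∈ Opens.comap f J := by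
        rw [mem_singleton_iff.1 h]; exact mem_univ y
      exact h1

theorem open3 : @IsOpen _ (tOf Y ℝ (Tau1sOpen Y ℝ)) S0 := by
  refine isOpen_generateFrom_of_mem ⟨{⊤}, J, ⟨?_, ?_⟩, ?_⟩
  · rintro W ⟨rfl, -⟩ V hV
    exact top_le_iff.1 hV
  · intro F hF h
    exact fin_sub F hF h
  · ext f
    constructor
    · intro h
      apply Opens.ext
      exact eq_univ_of_forall h
    · intro h y
      have h1 : y ∈ Opens.comap f J := by
        rw [mem_singleton_iff.1 h]; exact mem_univ y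
      exact h1

open Classical in
/-- bump functions -/
noncomputable def bump (n : ℕ) : C(Y, ℝ) where
  toFun y := if y = pt n then 2 else 0
  continuous_toFun := by
    refine continuous_def.2 fun U _ => ?_
    intro A hA hA' h
    refine (finite_singleton n).subset ?_
    rintro m ⟨hm, hm'⟩
    by_contra hne
    apply hm'
    have h1 : pt m ≠ pt n := fun h => hne (by cases h; rfl)
    have h2 : lim A hA hA' ≠ pt n := by simp
    rw [mem_preimage, if_neg h2] at h
    rw [mem_preimage, if_neg h1]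
    exact h

theorem bump_self (n : ℕ) : bump n (pt n) = 2 := if_pos rfl

theorem bump_ne {n : ℕ} {y : Y} (h : y ≠ pt n) : bump n y = 0 := if_neg h

theorem key {W : Set C(Y, ℝ)} (hW : @IsOpen _ (tOf Y ℝ (StrongScottOpen Y)) W)
    (h0 : (0 : C(Y, ℝ)) ∈ W) : ∃ A : Set ℕ, A ∉ UF ∧ ∀ n ∉ A, bump n ∈ W := by
  induction hW with
  | basic s hs =>
    obtain ⟨H, U, ⟨hup, hcov⟩, rfl⟩ := hs
    by_cases hU : (0 : ℝ) ∈ U
    · -- a cover by small sets
      let N : Set (Opens Y) := {V | {n | pt n ∈ V} ∉ UF}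
      have hN : sSup N = ⊤ := by
        apply Opens.ext
        rw [Opens.coe_sSup]
        refine eq_univ_of_forall fun y => ?_
        rw [mem_iUnion₂]
        rcases y with n | ⟨A, hA, hA'⟩
        · refine ⟨⟨{pt n}, ?_⟩, ?_, rfl⟩
          · intro A hA hA' h
            cases h
          · change {m | pt m ∈ ({pt n} : Set Y)} ∉ UF
            refine finite_notMem ((finite_singleton n).subset ?_)
            intro m hm
            cases hm
            rfl
        · refine ⟨⟨insert (lim A hA hA') (pt '' A), ?_⟩, ?_, mem_insert _ _⟩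
          · intro B hB hB' h
            rcases h with h | ⟨n, -, h⟩
            · cases h
              refine finite_empty.subset ?_
              rintro n ⟨h1, h2⟩
              exact h2 (Or.inr ⟨n, h1, rfl⟩)
            · cases h
          · change {m | pt m ∈ insert (lim A hA hA') (pt '' A)} ∉ UF
            intro h
            refine hA' (Filter.mem_of_superset h ?_)
            rintro m (hm | ⟨k, hk, hm⟩)
            · cases hm
            · cases hm
              exact hk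
      obtain ⟨F', hF', hfin, hmem⟩ := hcov N hN
      refine ⟨{n | pt n ∈ (sSup F' : Opens Y)}, ?_, fun n hn => ?_⟩
      · have h1 : {n | pt n ∈ (sSup F' : Opens Y)} = ⋃ V ∈ F', {n | pt n ∈ V} := by
          ext n
          simp only [mem_ofPred_eq, Opens.mem_sSup, mem_iUnion₂, exists_prop]
        rw [h1]
        intro h2
        obtain ⟨V, hV, h3⟩ := (Ultrafilter.finite_biUnion_mem_iff hfin).1 h2
        exact hF' hV h3
      · refine hup _ hmem _ fun y hy => ?_
        have hyn : y ≠ pt n := by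
          rintro rfl
          exact hn hy
        change bump n y ∈ U
        rw [bump_ne hyn]
        exact hU
    · refine ⟨∅, finite_notMem finite_empty, fun n _ => ?_⟩
      refine hup _ h0 _ fun y hy => ?_
      exact absurd (show (0 : ℝ) ∈ U from hy) hU
  | univ => exact ⟨∅, finite_notMem finite_empty, fun n _ => mem_univ _⟩
  | inter s t _ _ hs ht =>
    obtain ⟨A, hA, h1⟩ := hs h0.1
    obtain ⟨B, hB, h2⟩ := ht h0.2
    exact ⟨A ∪ B, union_notMem hA hB, fun n hn =>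
      ⟨h1 n fun h => hn (Or.inl h), h2 n fun h => hn (Or.inr h)⟩⟩
  | sUnion S _ ih =>
    obtain ⟨t, ht, hx⟩ := h0
    obtain ⟨A, hA, h1⟩ := ih t ht hx
    exact ⟨A, hA, fun n hn => ⟨t, ht, h1 n hn⟩⟩

theorem not_open : ¬ @IsOpen _ (tOf Y ℝ (StrongScottOpen Y)) S0 := by
  intro h
  have h0 : (0 : C(Y, ℝ)) ∈ S0 := fun y => by
    change (0 : ℝ) ∈ Ioo (-1 : ℝ) 1
    norm_num
  obtain ⟨A, hA, hb⟩ := key h h0
  have : A ≠ univ := fun h => hA (h ▸ Filter.univ_mem)
  obtain ⟨n, hn⟩ := (ne_univ_iff_exists_notMem A).1 this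
  have h1 := hb n hn (pt n)
  rw [bump_self] at h1
  change (2 : ℝ) ∈ Ioo (-1 : ℝ) 1 at h1
  norm_num at h1

/-- There are spaces `Y` and `Z` for which each of the three topologies differs from its
`Z`-version. -/
theorem result :
    ∃ (Y Z : Type) (_ : TopologicalSpace Y) (_ : TopologicalSpace Z),
      tcoZ Y Z ≠ tco Y Z ∧
      tOf Y Z (Tau1Open Y Z) ≠ tOf Y Z (ScottOpen Y) ∧
      tOf Y Z (Tau1sOpen Y Z) ≠ tOf Y Z (StrongScottOpen Y) := by
  refine ⟨Y, ℝ, inferInstance, inferInstance, fun h => ?_, fun h => ?_, fun h => ?_⟩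
  · refine not_open ?_
    have h1 := open1
    rw [h] at h1
    exact ((tsIs_le_tIs Y ℝ).trans (tIs_le_tco Y ℝ)) _ h1
  · refine not_open ?_
    have h1 := open2
    rw [h] at h1
    exact (tsIs_le_tIs Y ℝ) _ h1
  · refine not_open ?_
    have h1 := open3
    rwa [h] at h1

end Pool.Agent.Results.MP_43be50_gt.AllDiffer
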